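import Pool.Agent.Helper73.PP.Fix

/-!
MP_3976d4_co: automorphisms for which the special element is periodic.
-/

set_option autoImplicit false

universe u

namespace Pool.Agent.Helper73.PP

open Pool.Agent
open Pool.Agent.Helper31.FX (CoverTame coverTame_dual)

variable {P : Type u} [PartialOrder P]

lemma iter_lub (f : P ≃o P) (m : ℕ) {a b z : P} (h : IsLUB ({a, b} : Set P) z) :
    IsLUB ({(⇑f)^[m] a, (⇑f)^[m] b} : Set P) ((⇑f)^[m] z) := by
  induction m with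
  | zero => exact h
  | succ m ih =>
    rw [Function.iterate_succ_apply', Function.iterate_succ_apply', Function.iterate_succ_apply',
      ← Set.image_pair]
    exact f.isLUB_image'.2 ih

lemma iter_glb (f : P ≃o P) (m : ℕ) {a b z : P} (h : IsGLB ({a, b} : Set P) z) :
    IsGLB ({(⇑f)^[m] a, (⇑f)^[m] b} : Set P) ((⇑f)^[m] z) := by
  induction m with
  | zero => exact h
  | succ m ih =>
    rw [Function.iterate_succ_apply', Function.iterate_succ_apply', Function.iterate_succ_apply',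
      ← Set.image_pair]
    exact f.isGLB_image'.2 ih

/-- Automorphisms `f` of a poset with bounded chains with `f^m s = s`; conditions (i), (ii) only for
the points of period dividing `m`. -/
theorem auto_main (hfin : ∃ n : ℕ, ∀ c : Finset P, IsChain (· ≤ ·) (c : Set P) → c.card ≤ n)
    (f : P ≃o P) (m : ℕ) (s : P) (hs : (⇑f)^[m] s = s)
    (h1 : ∀ x : P, (⇑f)^[m] x = x →
      (∃ z : P, IsLUB ({s, x} : Set P) z) ∨ (∃ z : P, IsGLB ({s, x} : Set P) z))
    (h2 : ∀ x y : P, x < y → (⇑f)^[m] x = x → (⇑f)^[m] y = y →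
      (¬ ∃ z : P, IsGLB ({s, x} : Set P) z) →
      ∀ a : P, IsGLB ({s, y} : Set P) a → ∃ z : P, IsLUB ({a, x} : Set P) z)
    (h : (∃ p : ℕ, p.Prime ∧
        {x : P | (⇑f)^[m] x = x ∧ ∃ j : ℕ, ¬ p ∣ j ∧ (⇑f)^[j] x = x}.Finite) ∨
      CoverTame {d : P | d < s ∧ (⇑f)^[m] d = d}) : ∃ x : P, f x = x := by
  classical
  have hlub : ∀ a b z : P, (⇑f)^[m] a = a → (⇑f)^[m] b = b → IsLUB ({a, b} : Set P) z →
      (⇑f)^[m] z = z := by
    intro a b z ha hb hz
    have h3 := iter_lub f m hz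
    rw [ha, hb] at h3
    exact h3.unique hz
  have hglb : ∀ a b z : P, (⇑f)^[m] a = a → (⇑f)^[m] b = b → IsGLB ({a, b} : Set P) z →
      (⇑f)^[m] z = z := by
    intro a b z ha hb hz
    have h3 := iter_glb f m hz
    rw [ha, hb] at h3
    exact h3.unique hz
  let me : P → P := fun y => if h : ∃ z : P, IsGLB ({s, y} : Set P) z then h.choose else s
  have hme : ∀ y, (∃ z : P, IsGLB ({s, y} : Set P) z) → IsGLB ({s, y} : Set P) (me y) := by
    intro y h
    simp only [me, dif_pos h]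
    exact h.choose_spec
  have hmf : ∀ y, (⇑f)^[m] y = y → (⇑f)^[m] (me y) = me y := by
    intro y hy
    by_cases h : ∃ z : P, IsGLB ({s, y} : Set P) z
    · exact hglb s y _ hs hy (hme y h)
    · simp only [me, dif_neg h]
      exact hs
  have hfx : ∀ x : Fx (⇑f) m, (⇑f)^[m] (f x.1) = f x.1 := fun x => fx_map (⇑f) m x.2
  have hW : ∀ w : Fx (⇑f) m, w ∉ {x : Fx (⇑f) m | ¬ ∃ z : P, IsGLB ({s, f x.1} : Set P) z} →
      ∃ z : P, IsGLB ({s, f w.1} : Set P) z := by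
    intro w hw
    simpa using hw
  refine main_fx hfin (⇑f) f.monotone m ⟨s, hs⟩
    {x : Fx (⇑f) m | ¬ ∃ z : P, IsGLB ({s, f x.1} : Set P) z} ?_
    (fun w => ⟨me (f w.1), hmf _ (hfx w)⟩) ?_ ?_ ?_ h
  · intro x hx
    obtain ⟨z, hz⟩ := (h1 (f x.1) (hfx x)).resolve_right hx
    exact ⟨_, fx_lub (⇑f) m ⟨s, hs⟩ (fr (⇑f) m x) z hz (hlub _ _ _ hs (hfx x) hz)⟩
  · intro w hw
    have h3 := hme _ (hW w hw)
    exact ⟨h3.1 (Set.mem_insert _ _), h3.1 (Set.mem_insert_of_mem _ rfl)⟩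
  · intro v w hv hw hvw
    have h3 := hme _ (hW v hv)
    have h4 := hme _ (hW w hw)
    refine h4.2 ?_
    rintro z (rfl | rfl)
    · exact h3.1 (by simp)
    · exact (h3.1 (by simp)).trans (f.monotone hvw)
  · intro x w hxw hx hw _
    have hlt : f x.1 < f w.1 := f.strictMono hxw
    obtain ⟨z, hz⟩ := h2 (f x.1) (f w.1) hlt (hfx x) (hfx w) hx _ (hme _ (hW w hw))
    exact ⟨_, fx_lub (⇑f) m ⟨me (f w.1), hmf _ (hfx w)⟩ (fr (⇑f) m x) z hz
      (hlub _ _ _ (hmf _ (hfx w)) (hfx x) hz)⟩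

/-- The order dual of `auto_main`. -/
theorem auto_main_dual (hfin : ∃ n : ℕ, ∀ c : Finset P, IsChain (· ≤ ·) (c : Set P) → c.card ≤ n)
    (f : P ≃o P) (m : ℕ) (s : P) (hs : (⇑f)^[m] s = s)
    (h1 : ∀ x : P, (⇑f)^[m] x = x →
      (∃ z : P, IsLUB ({s, x} : Set P) z) ∨ (∃ z : P, IsGLB ({s, x} : Set P) z))
    (h2 : ∀ x y : P, y < x → (⇑f)^[m] x = x → (⇑f)^[m] y = y →
      (¬ ∃ z : P, IsLUB ({s, x} : Set P) z) →
      ∀ a : P, IsLUB ({s, y} : Set P) a → ∃ z : P, IsGLB ({a, x} : Set P) z)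
    (h : (∃ p : ℕ, p.Prime ∧
        {x : P | (⇑f)^[m] x = x ∧ ∃ j : ℕ, ¬ p ∣ j ∧ (⇑f)^[j] x = x}.Finite) ∨
      CoverTame {d : P | s < d ∧ (⇑f)^[m] d = d}) : ∃ x : P, f x = x := by
  obtain ⟨n, hn⟩ := hfin
  refine auto_main (P := Pᵒᵈ) ⟨n, fun c hc => hn c (by
    intro a ha b hb hab
    exact (hc ha hb hab).symm)⟩ f.dual m (OrderDual.toDual s) hs
    (fun x hx => (h1 (OrderDual.ofDual x) hx).symm)
    (fun x y hxy hx hy h3 a ha => h2 (OrderDual.ofDual x) (OrderDual.ofDual y) hxy hx hy h3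
      (OrderDual.ofDual a) ha) ?_
  rcases h with h | h
  · exact Or.inl h
  · exact Or.inr (coverTame_dual _ h)

end Pool.Agent.Helper73.PP
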