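import Pool.Agent.Helper43.SP.MainE

/-!
MP_3976d4_co: helper43's theorem on periods for a map with carriers (an abstract form of the
contraction given by a special element), following `Helper43/SP/Local.lean`.
-/

set_option autoImplicit false

namespace Pool.Agent.Helper73.PP

open Filter
open scoped Classical
open Pool.Agent.Helper43.SP
open Pool.Agent.Helper43.SP.FK

noncomputable section

/-- Carriers for the map `f` and the point `s`: on non-empty chains `T`,
`f (min T) ≤ R T ≥ Q T ≤ s`, and `R`, `Q` are antitone with respect to inclusion. -/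
structure Carr {P : Type*} [PartialOrder P] (s : P) (f : P → P) (R Q : Finset P → P) : Prop where
  anti : ∀ T T' : Finset P, IsChain (· ≤ ·) (T : Set P) → T'.Nonempty → T' ⊆ T → R T ≤ R T'
  qanti : ∀ T T' : Finset P, IsChain (· ≤ ·) (T : Set P) → T'.Nonempty → T' ⊆ T → Q T ≤ Q T'
  qle : ∀ T : Finset P, IsChain (· ≤ ·) (T : Set P) → T.Nonempty → Q T ≤ R T
  qls : ∀ T : Finset P, IsChain (· ≤ ·) (T : Set P) → T.Nonempty → Q T ≤ s
  fle : ∀ T : Finset P, IsChain (· ≤ ·) (T : Set P) → T.Nonempty → f (lst s T) ≤ R T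

variable {P : Type*} [PartialOrder P]

lemma em_succ (f : P → P) (i : ℕ) (x : P) : em f i x = em f (i + 1) (f x) := by
  change mk (emS f i x) = mk (emS f (i + 1) (f x))
  apply mk_eq_mk
  refine eventually_atTop.mpr ⟨i + 1, fun j hj => ?_⟩
  change f^[j - i] x = f^[j - (i + 1)] (f x)
  rw [show j - i = (j - (i + 1)) + 1 by omega, Function.iterate_succ_apply]

variable {k : Type*} [Field k]

/-- The ultrapower of the direct limit is acyclic. -/
theorem exact_UP2 (s : P) (f : P → P) (R Q : Finset P → P) (hc : Carr s f R Q)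
    (hf : Monotone f) : Exact k (UP (DL f)) := by
  apply exact_of_local
  intro Y
  have hlev : ∀ i : ℕ, ∃ l : ℕ, (∀ x ∈ Y, ∀ y ∈ Y,
      (rp x i ≤ rp y i ↔ rep (rp x i) l ≤ rep (rp y i) l)) ∧
      ∀ x ∈ Y, em f l (rep (rp x i) l) = rp x i := by
    intro i
    have e1 : ∀ᶠ l in atTop, ∀ x ∈ Y, ∀ y ∈ Y,
        (rp x i ≤ rp y i ↔ rep (rp x i) l ≤ rep (rp y i) l) := by
      rw [Filter.eventually_all_finset]
      intro x _
      rw [Filter.eventually_all_finset]
      intro y _
      exact le_iff_ev hf _ _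
    have e2 : ∀ᶠ l in atTop, ∀ x ∈ Y, em f l (rep (rp x i) l) = rp x i := by
      rw [Filter.eventually_all_finset]
      intro x _
      exact em_rep _
    exact (e1.and e2).exists
  choose l hl1 hl2 using hlev
  set q : ℕ → Finset (UP (DL f)) → Finset P :=
    fun i T => T.image fun y => rep (rp y i) (l i) with hq
  have hqc : ∀ᶠ i in UU, ∀ T : Ch (UP (DL f)), T.1 ⊆ Y →
      IsChain (· ≤ ·) ((q i T.1 : Finset P) : Set P) := by
    filter_upwards [ufin Y] with i hi T hT
    intro a ha b hb hab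
    rw [hq, Finset.mem_coe, Finset.mem_image] at ha hb
    obtain ⟨x, hx, rfl⟩ := ha
    obtain ⟨y, hy, rfl⟩ := hb
    have hxy : x ≠ y := by rintro rfl; exact hab rfl
    rcases T.2 hx hy hxy with h' | h'
    · exact Or.inl ((hl1 i x (hT hx) y (hT hy)).mp ((hi x (hT hx) y (hT hy)).mp h'))
    · exact Or.inr ((hl1 i y (hT hy) x (hT hx)).mp ((hi y (hT hy) x (hT hx)).mp h'))
  have hqn : ∀ i, ∀ T : Finset (UP (DL f)), T.Nonempty → (q i T).Nonempty :=
    fun i T hT => hT.image _
  have hqs : ∀ i, ∀ T T' : Finset (UP (DL f)), T' ⊆ T → q i T' ⊆ q i T :=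
    fun i T T' h => Finset.image_subset_image h
  refine ⟨umk fun i => em f (l i + 1) s, fun T => umk fun i => em f (l i + 1) (R (q i T.1)),
    fun T => umk fun i => em f (l i + 1) (Q (q i T.1)), ?_, ?_, ?_, ?_, ?_⟩
  · intro T T' hT hT' hne
    rw [umk_le]
    filter_upwards [hqc] with i hi
    exact em_mono hf _ (hc.anti _ _ (hi T hT) (hqn i _ hne) (hqs i _ _ hT'))
  · intro T T' hT hT' hne
    rw [umk_le]
    filter_upwards [hqc] with i hi
    exact em_mono hf _ (hc.qanti _ _ (hi T hT) (hqn i _ hne) (hqs i _ _ hT'))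
  · intro T hT hne
    rw [umk_le]
    filter_upwards [hqc] with i hi
    exact em_mono hf _ (hc.qle _ (hi T hT) (hqn i _ hne))
  · intro T hT hne
    rw [umk_le]
    filter_upwards [hqc] with i hi
    exact em_mono hf _ (hc.qls _ (hi T hT) (hqn i _ hne))
  · intro T hT hne m hm hmin
    conv_lhs => rw [← umk_rp m]
    rw [umk_le]
    filter_upwards [hqc, ufin Y] with i hi hi2
    have h3 := hc.fle _ (hi T hT) (hqn i _ hne)
    obtain ⟨h4, _⟩ := lst_spec s (hi T hT) (hqn i _ hne)
    rw [hq] at h4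
    dsimp only at h4
    rw [Finset.mem_image] at h4
    obtain ⟨x, hx, hxe⟩ := h4
    calc rp m i ≤ rp x i := (hi2 m (hT hm) x (hT hx)).mp (hmin x hx)
      _ = em f (l i) (lst s (q i T.1)) := by rw [← hl2 i x (hT hx), hxe]
      _ = em f (l i + 1) (f (lst s (q i T.1))) := em_succ f _ _
      _ ≤ em f (l i + 1) (R (q i T.1)) := em_mono hf _ h3

/-- helper43's theorem for a map with carriers. -/
theorem main_carr (s : P) (f : P → P) (R Q : Finset P → P) (hc : Carr s f R Q)
    (hn : ∃ n : ℕ, ∀ c : Finset P, IsChain (· ≤ ·) (c : Set P) → c.card ≤ n)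
    (hf : Monotone f) (p : ℕ) (hp : p.Prime)
    (hper : {x : P | ∃ j, ¬ p ∣ j ∧ f^[j] x = x}.Finite) : ∃ x, f x = x := by
  have : Fact p.Prime := ⟨hp⟩
  obtain ⟨y, hy⟩ := fixed_of_finite (FF f) hp (ZMod p) (finLen_DL hf hn)
    (exact_UP2 s f R Q hc hf) (prime_finite hper)
  exact fixed_of_fixed hy

end

end Pool.Agent.Helper73.PP
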