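import Pool.Agent.Helper73.PP.Auto
import Pool.Agent.Helper73.PP.Mono

/-!
MP_3976d4_co: the final forms of the theorems on periods.
-/

set_option autoImplicit false

universe u

namespace Pool.Agent.Helper73.PP

open Pool.Agent
open Pool.Agent.Helper31.FX (CoverTame coverTame_of_not_hasBoundedRay)

/-- the alternatives for the points of period dividing `m` -/
def Few {P : Type u} [PartialOrder P] (f : P → P) (m : ℕ) (E : Set P) : Prop :=
  (∃ p k : ℕ, p.Prime ∧ m = p ^ k) ∨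
    (∃ p : ℕ, p.Prime ∧ {x : P | f^[m] x = x ∧ ∃ j : ℕ, ¬ p ∣ j ∧ f^[j] x = x}.Finite) ∨
    {d : P | d ∈ E ∧ f^[m] d = d}.Finite ∨
    (∀ a b c : P, a ∈ E → b ∈ E → c ∈ E → f^[m] a = a → f^[m] b = b → f^[m] c = c →
      a < b → ¬ b < c)

lemma few_cases {P : Type u} [PartialOrder P] (f : P → P) (m : ℕ) (E : Set P) (h : Few f m E)
    (hno : ¬ ∃ x, f x = x) :
    (∃ p : ℕ, p.Prime ∧ {x : P | f^[m] x = x ∧ ∃ j : ℕ, ¬ p ∣ j ∧ f^[j] x = x}.Finite) ∨
      CoverTame {d : P | d ∈ E ∧ f^[m] d = d} := by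
  rcases h with ⟨p, k, hp, rfl⟩ | h | h | h
  · refine Or.inl ⟨p, hp, ?_⟩
    have : {x : P | f^[p ^ k] x = x ∧ ∃ j : ℕ, ¬ p ∣ j ∧ f^[j] x = x} = ∅ := by
      rw [Set.eq_empty_iff_forall_notMem]
      rintro x ⟨h1, j, h2, h3⟩
      apply hno
      refine ⟨x, ?_⟩
      have h4 : Function.IsPeriodicPt f (p ^ k) x := h1
      have h5 : Function.IsPeriodicPt f j x := h3
      have h6 := h4.gcd h5
      have h7 : Nat.gcd (p ^ k) j = 1 :=
        Nat.Coprime.pow_left k ((Nat.Prime.coprime_iff_not_dvd hp).2 h2)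
      rw [h7] at h6
      exact h6
    rw [this]
    exact Set.finite_empty
  · exact Or.inl h
  · exact Or.inr (coverTame_of_not_hasBoundedRay _ (Helper73.FX.not_bray_of_finite h))
  · exact Or.inr (Helper98.HX.coverTame_of_no_three _ fun a ha b hb c hc hab =>
      h a b c ha.1 hb.1 hc.1 ha.2 hb.2 hc.2 hab)

section auto

variable {P : Type u} [PartialOrder P]

lemma auto_eq (hfin : ∃ n : ℕ, ∀ c : Finset P, IsChain (· ≤ ·) (c : Set P) → c.card ≤ n)
    (f : P → P) (hf : Monotone f) (hi : Function.Injective f) (m : ℕ) (s : P)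
    (hs : f^[m] s ≤ s ∨ s ≤ f^[m] s) : f^[m] s = s := by
  have hg : Monotone f^[m] := hf.iterate m
  have hinj : Function.Injective f^[m] := hi.iterate m
  classical
  obtain ⟨n, hn⟩ := hfin
  have hstep : ∀ k, (f^[m])^[k + 1] s = (f^[m])^[k] s → f^[m] s = s := by
    intro k hk
    rw [Function.iterate_succ_apply] at hk
    exact (hinj.iterate k) hk
  by_contra hne
  rcases hs with hs | hs
  · have ha : StrictAnti (fun k => (f^[m])^[k] s) := strictAnti_nat_of_succ_lt (fun k =>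
      lt_of_le_of_ne (by
        rw [Function.iterate_succ_apply]
        exact hg.iterate k hs) (fun e => hne (hstep k e)))
    have h1 := hn ((Finset.range (n + 1)).image (fun k => (f^[m])^[k] s)) (by
      intro x hx y hy _
      rw [Finset.mem_coe, Finset.mem_image] at hx hy
      obtain ⟨i, -, rfl⟩ := hx
      obtain ⟨j, -, rfl⟩ := hy
      rcases le_total i j with h | h
      · exact Or.inr (ha.antitone h)
      · exact Or.inl (ha.antitone h))
    rw [Finset.card_image_of_injective _ ha.injective, Finset.card_range] at h1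
    omega
  · have ha : StrictMono (fun k => (f^[m])^[k] s) := strictMono_nat_of_lt_succ (fun k =>
      lt_of_le_of_ne (by
        rw [Function.iterate_succ_apply]
        exact hg.iterate k hs) (fun e => hne (hstep k e.symm)))
    have h1 := hn ((Finset.range (n + 1)).image (fun k => (f^[m])^[k] s)) (by
      intro x hx y hy _
      rw [Finset.mem_coe, Finset.mem_image] at hx hy
      obtain ⟨i, -, rfl⟩ := hx
      obtain ⟨j, -, rfl⟩ := hy
      rcases le_total i j with h | h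
      · exact Or.inl (ha.monotone h)
      · exact Or.inr (ha.monotone h))
    rw [Finset.card_image_of_injective _ ha.injective, Finset.card_range] at h1
    omega

theorem auto_final (hfin : ∃ n : ℕ, ∀ c : Finset P, IsChain (· ≤ ·) (c : Set P) → c.card ≤ n)
    (f : P ≃o P) (m : ℕ) (s : P) (hs : (⇑f)^[m] s ≤ s ∨ s ≤ (⇑f)^[m] s)
    (h1 : ∀ x : P, (⇑f)^[m] x = x →
      (∃ z : P, IsLUB ({s, x} : Set P) z) ∨ (∃ z : P, IsGLB ({s, x} : Set P) z))
    (h2 : ∀ x y : P, x < y → (⇑f)^[m] x = x → (⇑f)^[m] y = y →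
      (¬ ∃ z : P, IsGLB ({s, x} : Set P) z) →
      ∀ a : P, IsGLB ({s, y} : Set P) a → ∃ z : P, IsLUB ({a, x} : Set P) z)
    (h : Few (⇑f) m {d : P | d < s}) : ∃ x : P, f x = x := by
  by_contra hno
  exact hno (auto_main hfin f m s (auto_eq hfin (⇑f) f.monotone f.injective m s hs) h1 h2
    (few_cases _ _ _ h hno))

theorem auto_final_dual
    (hfin : ∃ n : ℕ, ∀ c : Finset P, IsChain (· ≤ ·) (c : Set P) → c.card ≤ n)
    (f : P ≃o P) (m : ℕ) (s : P) (hs : (⇑f)^[m] s ≤ s ∨ s ≤ (⇑f)^[m] s)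
    (h1 : ∀ x : P, (⇑f)^[m] x = x →
      (∃ z : P, IsLUB ({s, x} : Set P) z) ∨ (∃ z : P, IsGLB ({s, x} : Set P) z))
    (h2 : ∀ x y : P, y < x → (⇑f)^[m] x = x → (⇑f)^[m] y = y →
      (¬ ∃ z : P, IsLUB ({s, x} : Set P) z) →
      ∀ a : P, IsLUB ({s, y} : Set P) a → ∃ z : P, IsGLB ({a, x} : Set P) z)
    (h : Few (⇑f) m {d : P | s < d}) : ∃ x : P, f x = x := by
  by_contra hno
  exact hno (auto_main_dual hfin f m s (auto_eq hfin (⇑f) f.monotone f.injective m s hs) h1 h2
    (few_cases _ _ _ h hno))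

theorem mono_final (hfin : ∃ n : ℕ, ∀ c : Finset P, IsChain (· ≤ ·) (c : Set P) → c.card ≤ n)
    (f : P → P) (hf : Monotone f) (m : ℕ) (s : P) (hs : f^[m] s ≤ s)
    (h1 : ∀ x : P, f^[m] x = x →
      (∃ z : P, IsGLB ({s, x} : Set P) z) ∨
        ∀ d : P, d ≤ s → f^[m] d = d → ∃ z : P, IsLUB ({d, x} : Set P) z)
    (h : Few f m {d : P | d < s}) : ∃ x : P, f x = x := by
  by_contra hno
  exact hno (mono_main hfin f hf m s hs h1 (few_cases _ _ _ h hno))

theorem mono_final_dual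
    (hfin : ∃ n : ℕ, ∀ c : Finset P, IsChain (· ≤ ·) (c : Set P) → c.card ≤ n)
    (f : P → P) (hf : Monotone f) (m : ℕ) (s : P) (hs : s ≤ f^[m] s)
    (h1 : ∀ x : P, f^[m] x = x →
      (∃ z : P, IsLUB ({s, x} : Set P) z) ∨
        ∀ d : P, s ≤ d → f^[m] d = d → ∃ z : P, IsGLB ({d, x} : Set P) z)
    (h : Few f m {d : P | s < d}) : ∃ x : P, f x = x := by
  by_contra hno
  exact hno (mono_main_dual hfin f hf m s hs h1 (few_cases _ _ _ h hno))

end auto

end Pool.Agent.Helper73.PP
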