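import Pool.Agent.Helper73.PP.Sel
import Pool.Agent.Helper73.FX.Cover3

/-!
MP_3976d4_co: maps with a periodic special element: reduction to the points of period dividing `m`.
-/

set_option autoImplicit false

universe u

namespace Pool.Agent.Helper73.PP

open Pool.Agent
open Pool.Agent.Helper31.FX (CoverTame)

section basic

variable {P : Type u}

/-- the points of period dividing `m` -/
abbrev Fx (f : P → P) (m : ℕ) : Type u := {x : P // f^[m] x = x}

lemma fx_map (f : P → P) (m : ℕ) {x : P} (h : f^[m] x = x) : f^[m] (f x) = f x := by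
  rw [← Function.iterate_succ_apply, Function.iterate_succ_apply', h]

/-- the restriction of `f` -/
def fr (f : P → P) (m : ℕ) (x : Fx f m) : Fx f m := ⟨f x.1, fx_map f m x.2⟩

lemma fr_iter (f : P → P) (m j : ℕ) (x : Fx f m) : ((fr f m)^[j] x).1 = f^[j] x.1 := by
  induction j with
  | zero => rfl
  | succ j ih =>
    rw [Function.iterate_succ_apply', Function.iterate_succ_apply', ← ih]
    rfl

lemma fr_finite (f : P → P) (m p : ℕ)
    (h : {x : P | f^[m] x = x ∧ ∃ j : ℕ, ¬ p ∣ j ∧ f^[j] x = x}.Finite) :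
    {x : Fx f m | ∃ j : ℕ, ¬ p ∣ j ∧ (fr f m)^[j] x = x}.Finite := by
  refine Set.Finite.subset (h.preimage Subtype.val_injective.injOn) ?_
  rintro x ⟨j, h1, h2⟩
  refine ⟨x.2, j, h1, ?_⟩
  rw [← fr_iter, h2]

end basic

variable {P : Type u} [PartialOrder P]

lemma fr_mono (f : P → P) (hf : Monotone f) (m : ℕ) : Monotone (fr f m) := fun _ _ h => hf h

lemma fx_fin (hfin : ∃ n : ℕ, ∀ c : Finset P, IsChain (· ≤ ·) (c : Set P) → c.card ≤ n)
    (f : P → P) (m : ℕ) :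
    ∃ n : ℕ, ∀ c : Finset (Fx f m), IsChain (· ≤ ·) (c : Set (Fx f m)) → c.card ≤ n := by
  obtain ⟨n, hn⟩ := hfin
  refine ⟨n, fun c hc => ?_⟩
  have h1 := hn (c.map ⟨Subtype.val, Subtype.val_injective⟩) (by
    intro x hx y hy hxy
    rw [Finset.coe_map] at hx hy
    obtain ⟨x', hx', rfl⟩ := hx
    obtain ⟨y', hy', rfl⟩ := hy
    exact hc hx' hy' (fun e => hxy (by rw [e])))
  rw [Finset.card_map] at h1
  exact h1

/-- Coverings of a set of points of period dividing `m`. -/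
lemma fx_tame (f : P → P) (m : ℕ) (E : Set P) (hE : ∀ e ∈ E, f^[m] e = e) (h : CoverTame E) :
    CoverTame {x : Fx f m | x.1 ∈ E} := by
  obtain ⟨X, hX, q, hq, hr⟩ := h
  refine ⟨X, hX, fun x => ⟨q x, hE _ (hq.mem x)⟩, ?_, hr⟩
  refine ⟨fun x => hq.mem x, ?_, fun x y h => hq.mono x y h, ?_, ?_⟩
  · rintro ⟨e, he⟩ he'
    obtain ⟨x, hx⟩ := hq.onto e he'
    exact ⟨x, Subtype.ext hx⟩
  · rintro x ⟨e, he⟩ he' hle
    obtain ⟨y, ⟨hy1, hy2⟩, hu⟩ := hq.up x e he' hle
    exact ⟨y, ⟨hy1, Subtype.ext hy2⟩, fun z hz => hu z ⟨hz.1, congrArg Subtype.val hz.2⟩⟩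
  · rintro x ⟨e, he⟩ he' hle
    obtain ⟨y, ⟨hy1, hy2⟩, hu⟩ := hq.down x e he' hle
    exact ⟨y, ⟨hy1, Subtype.ext hy2⟩, fun z hz => hu z ⟨hz.1, congrArg Subtype.val hz.2⟩⟩

/-- The two conclusions: selection data on the points of period dividing `m`. -/
theorem main_fx (hfin : ∃ n : ℕ, ∀ c : Finset P, IsChain (· ≤ ·) (c : Set P) → c.card ≤ n)
    (f : P → P) (hf : Monotone f) (m : ℕ) (s : Fx f m)
    (A : Set (Fx f m)) (hA : ∀ x ∈ A, ∃ z : Fx f m, IsLUB ({s, fr f m x} : Set (Fx f m)) z)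
    (be : Fx f m → Fx f m) (hbe : ∀ w, w ∉ A → be w ≤ s ∧ be w ≤ fr f m w)
    (hbem : ∀ v w, v ∉ A → w ∉ A → v ≤ w → be v ≤ be w)
    (hj : ∀ x w : Fx f m, x < w → x ∈ A → w ∉ A → be w < s →
      ∃ z : Fx f m, IsLUB ({be w, fr f m x} : Set (Fx f m)) z)
    (h : (∃ p : ℕ, p.Prime ∧ {x : P | f^[m] x = x ∧ ∃ j : ℕ, ¬ p ∣ j ∧ f^[j] x = x}.Finite) ∨
      CoverTame {d : P | d < s.1 ∧ f^[m] d = d}) : ∃ x : P, f x = x := by
  have key : ∃ x : Fx f m, fr f m x = x := by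
    rcases h with ⟨p, hp, hper⟩ | ht
    · exact main_sel (Fx f m) (fx_fin hfin f m) s (fr f m) (fr_mono f hf m) A hA be hbe hbem hj p hp
        (fr_finite f m p hper)
    · refine Helper73.FX.main_cover3 (Fx f m) (fx_fin hfin f m) s (fr f m) (fr_mono f hf m) A hA be
        hbe hbem hj ?_
      refine Helper73.FX.coverTame_mono ?_ (fx_tame f m _ (fun e he => he.2) ht)
      rintro e ⟨w, _, hw, rfl⟩
      exact ⟨hw, (be w).2⟩
  obtain ⟨x, hx⟩ := key
  exact ⟨x.1, congrArg Subtype.val hx⟩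

/-- A least upper bound in `P` of two points of period dividing `m` which has period dividing `m`. -/
lemma fx_lub (f : P → P) (m : ℕ) (a b : Fx f m) (z : P) (hz : IsLUB ({a.1, b.1} : Set P) z)
    (h : f^[m] z = z) : IsLUB ({a, b} : Set (Fx f m)) ⟨z, h⟩ := by
  constructor
  · rintro w (rfl | rfl)
    · exact hz.1 (by simp)
    · exact hz.1 (by simp)
  · intro w hw
    refine hz.2 ?_
    rintro v (rfl | rfl)
    · exact hw (by simp)
    · exact hw (by simp)

end Pool.Agent.Helper73.PP
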