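import Pool.Agent.Helper73.PP.Final

/-!
MP_3976d4_co: lattices without 0, 1 and the complements of `s`; `f^m s` comparable with `s`.
-/

set_option autoImplicit false

universe u

namespace Pool.Agent.Helper73.PP

open Pool.Agent

/-- Lattices: `f^m s` comparable with `s`, `m` a power of a prime (or one of the alternatives of
`Few`). -/
theorem lattice_final (L : Type u) [Lattice L] [BoundedOrder L]
    (hfin : ∃ n : ℕ, ∀ c : Finset L, IsChain (· ≤ ·) (c : Set L) → c.card ≤ n)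
    (s : {x : L // x ≠ ⊥ ∧ x ≠ ⊤}) (hs : ¬ IsCompl s.1 s.1)
    (f : {x : L // x ≠ ⊥ ∧ x ≠ ⊤ ∧ ¬ IsCompl x s.1} → {x : L // x ≠ ⊥ ∧ x ≠ ⊤ ∧ ¬ IsCompl x s.1})
    (hf : Monotone f) (m : ℕ)
    (h : (f^[m] ⟨s.1, s.2.1, s.2.2, hs⟩ ≤ ⟨s.1, s.2.1, s.2.2, hs⟩ ∧
        Few f m {d | d < ⟨s.1, s.2.1, s.2.2, hs⟩}) ∨
      (⟨s.1, s.2.1, s.2.2, hs⟩ ≤ f^[m] ⟨s.1, s.2.1, s.2.2, hs⟩ ∧
        Few f m {d | ⟨s.1, s.2.1, s.2.2, hs⟩ < d})) : ∃ x, f x = x := by
  have hfin' : ∃ n : ℕ, ∀ c : Finset {x : L // x ≠ ⊥ ∧ x ≠ ⊤ ∧ ¬ IsCompl x s.1},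
      IsChain (· ≤ ·) (c : Set {x : L // x ≠ ⊥ ∧ x ≠ ⊤ ∧ ¬ IsCompl x s.1}) → c.card ≤ n := by
    obtain ⟨n, hn⟩ := hfin
    refine ⟨n, fun c hc => ?_⟩
    have h1 := hn (c.map ⟨Subtype.val, Subtype.val_injective⟩) (by
      intro x hx y hy hxy
      rw [Finset.coe_map] at hx hy
      obtain ⟨x', hx', rfl⟩ := hx
      obtain ⟨y', hy', rfl⟩ := hy
      exact hc hx' hy' (fun e => hxy (by rw [e])))
    rw [Finset.card_map] at h1
    exact h1
  rcases h with ⟨h1, h2⟩ | ⟨h1, h2⟩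
  · refine mono_final hfin' f hf m _ h1 (fun x _ => ?_) h2
    by_cases hx : s.1 ⊓ x.1 = ⊥
    · right
      intro d hd _
      have hd' : d.1 ≤ s.1 := hd
      have hsx : s.1 ⊔ x.1 ≠ ⊤ := by
        intro e
        refine x.2.2.2 (IsCompl.of_eq ?_ ?_)
        · rw [inf_comm]
          exact hx
        · rw [sup_comm]
          exact e
      have hne : d.1 ⊔ x.1 ≠ ⊤ := by
        intro e
        have h3 : d.1 ⊔ x.1 ≤ s.1 ⊔ x.1 := sup_le_sup_right hd' x.1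
        rw [e] at h3
        exact hsx (top_le_iff.1 h3)
      refine ⟨⟨d.1 ⊔ x.1, ?_, hne, ?_⟩, ?_, ?_⟩
      · intro e
        have h3 : d.1 ≤ d.1 ⊔ x.1 := le_sup_left
        rw [e] at h3
        exact d.2.1 (le_bot_iff.1 h3)
      · intro hc
        have h3 : d.1 ≤ (d.1 ⊔ x.1) ⊓ s.1 := le_inf le_sup_left hd'
        rw [hc.inf_eq_bot] at h3
        exact d.2.1 (le_bot_iff.1 h3)
      · intro w hw
        rcases hw with h3 | h3
        · rw [h3]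
          exact (le_sup_left : d.1 ≤ d.1 ⊔ x.1)
        · rw [Set.mem_singleton_iff.1 h3]
          exact (le_sup_right : x.1 ≤ d.1 ⊔ x.1)
      · intro w hw
        exact sup_le (hw (Set.mem_insert _ _)) (hw (Set.mem_insert_of_mem _ rfl))
    · left
      refine ⟨⟨s.1 ⊓ x.1, hx, ?_, ?_⟩, ?_, ?_⟩
      · intro e
        have h3 : s.1 ⊓ x.1 ≤ s.1 := inf_le_left
        rw [e] at h3
        exact s.2.2 (top_le_iff.1 h3)
      · intro hc
        have h3 := hc.sup_eq_top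
        rw [sup_eq_right.2 (inf_le_left : s.1 ⊓ x.1 ≤ s.1)] at h3
        exact s.2.2 h3
      · intro w hw
        rcases hw with h3 | h3
        · rw [h3]
          exact (inf_le_left : s.1 ⊓ x.1 ≤ s.1)
        · rw [Set.mem_singleton_iff.1 h3]
          exact (inf_le_right : s.1 ⊓ x.1 ≤ x.1)
      · intro w hw
        exact le_inf (hw (Set.mem_insert _ _)) (hw (Set.mem_insert_of_mem _ rfl))
  · refine mono_final_dual hfin' f hf m _ h1 (fun x _ => ?_) h2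
    by_cases hx : s.1 ⊔ x.1 = ⊤
    · right
      intro d hd _
      have hd' : s.1 ≤ d.1 := hd
      have hsx : s.1 ⊓ x.1 ≠ ⊥ := by
        intro e
        refine x.2.2.2 (IsCompl.of_eq ?_ ?_)
        · rw [inf_comm]
          exact e
        · rw [sup_comm]
          exact hx
      have hle : s.1 ⊓ x.1 ≤ d.1 ⊓ x.1 := inf_le_inf_right x.1 hd'
      refine ⟨⟨d.1 ⊓ x.1, ?_, ?_, ?_⟩, ?_, ?_⟩
      · intro e
        rw [e] at hle
        exact hsx (le_bot_iff.1 hle)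
      · intro e
        have h3 : d.1 ⊓ x.1 ≤ x.1 := inf_le_right
        rw [e] at h3
        exact x.2.2.1 (top_le_iff.1 h3)
      · intro hc
        have h3 : s.1 ⊓ x.1 ≤ (d.1 ⊓ x.1) ⊓ s.1 := le_inf hle inf_le_left
        rw [hc.inf_eq_bot] at h3
        exact hsx (le_bot_iff.1 h3)
      · intro w hw
        rcases hw with h3 | h3
        · rw [h3]
          exact (inf_le_left : d.1 ⊓ x.1 ≤ d.1)
        · rw [Set.mem_singleton_iff.1 h3]
          exact (inf_le_right : d.1 ⊓ x.1 ≤ x.1)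
      · intro w hw
        exact le_inf (hw (Set.mem_insert _ _)) (hw (Set.mem_insert_of_mem _ rfl))
    · left
      refine ⟨⟨s.1 ⊔ x.1, ?_, hx, ?_⟩, ?_, ?_⟩
      · intro e
        have h3 : s.1 ≤ s.1 ⊔ x.1 := le_sup_left
        rw [e] at h3
        exact s.2.1 (le_bot_iff.1 h3)
      · intro hc
        have h3 := hc.inf_eq_bot
        rw [inf_eq_right.2 (le_sup_left : s.1 ≤ s.1 ⊔ x.1)] at h3
        exact s.2.1 h3
      · intro w hw
        rcases hw with h3 | h3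
        · rw [h3]
          exact (le_sup_left : s.1 ≤ s.1 ⊔ x.1)
        · rw [Set.mem_singleton_iff.1 h3]
          exact (le_sup_right : x.1 ≤ s.1 ⊔ x.1)
      · intro w hw
        exact sup_le (hw (Set.mem_insert _ _)) (hw (Set.mem_insert_of_mem _ rfl))

/-- Lattices: `f^m s` comparable with `s`, `m` a power of a prime. -/
theorem lattice_prime (L : Type u) [Lattice L] [BoundedOrder L]
    (hfin : ∃ n : ℕ, ∀ c : Finset L, IsChain (· ≤ ·) (c : Set L) → c.card ≤ n)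
    (s : L) (hs : s ≠ ⊥ ∧ s ≠ ⊤ ∧ ¬ IsCompl s s)
    (f : {x : L // x ≠ ⊥ ∧ x ≠ ⊤ ∧ ¬ IsCompl x s} → {x : L // x ≠ ⊥ ∧ x ≠ ⊤ ∧ ¬ IsCompl x s})
    (hf : Monotone f) (p k : ℕ) (hp : p.Prime)
    (h : f^[p ^ k] ⟨s, hs⟩ ≤ ⟨s, hs⟩ ∨ ⟨s, hs⟩ ≤ f^[p ^ k] ⟨s, hs⟩) : ∃ x, f x = x := by
  refine lattice_final L hfin ⟨s, hs.1, hs.2.1⟩ hs.2.2 f hf (p ^ k) ?_
  rcases h with h | h
  · exact Or.inl ⟨h, Or.inl ⟨p, k, hp, rfl⟩⟩
  · exact Or.inr ⟨h, Or.inl ⟨p, k, hp, rfl⟩⟩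

end Pool.Agent.Helper73.PP
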