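import Pool.Agent.Helper73.PP.Carrier

/-!
MP_3976d4_co: helper43's theorem on periods in selection form: `A` a set of points `x` such that
`s ∨ f x` exists, `be w ≤ s, f w` off `A`; and its order dual.
-/

set_option autoImplicit false

namespace Pool.Agent.Helper73.PP

open scoped Classical
open Pool.Agent.Helper43.SP

noncomputable section

variable {P : Type*} [PartialOrder P]

/-- least value of `be` on the part of `T` off `A`, or `s` -/
def selQ (s : P) (A : Set P) (be : P → P) (T : Finset P) : P :=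
  if (T.filter (fun x => x ∉ A)).Nonempty then be (lst s (T.filter (fun x => x ∉ A))) else s

lemma filter_spec (s : P) (A : Set P) {T : Finset P} (hc : IsChain (· ≤ ·) (T : Set P))
    (h : (T.filter (fun x => x ∉ A)).Nonempty) :
    lst s (T.filter (fun x => x ∉ A)) ∈ T ∧ lst s (T.filter (fun x => x ∉ A)) ∉ A ∧
      ∀ x ∈ T, x ∉ A → lst s (T.filter (fun x => x ∉ A)) ≤ x := by
  have hc' : IsChain (· ≤ ·) ((T.filter (fun x => x ∉ A) : Finset P) : Set P) :=
    hc.mono (Finset.coe_subset.2 (Finset.filter_subset _ _))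
  obtain ⟨h1, h2⟩ := lst_spec s hc' h
  rw [Finset.mem_filter] at h1
  exact ⟨h1.1, h1.2, fun x hx hxA => h2 x (Finset.mem_filter.2 ⟨hx, hxA⟩)⟩

theorem main_sel (P : Type*) [PartialOrder P]
    (hfin : ∃ n : ℕ, ∀ c : Finset P, IsChain (· ≤ ·) (c : Set P) → c.card ≤ n) (s : P)
    (f : P → P) (hf : Monotone f)
    (A : Set P) (hA : ∀ x ∈ A, ∃ z : P, IsLUB ({s, f x} : Set P) z)
    (be : P → P) (hbe : ∀ w, w ∉ A → be w ≤ s ∧ be w ≤ f w)
    (hbem : ∀ v w, v ∉ A → w ∉ A → v ≤ w → be v ≤ be w)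
    (hj : ∀ x w : P, x < w → x ∈ A → w ∉ A → be w < s → ∃ z : P, IsLUB ({be w, f x} : Set P) z)
    (p : ℕ) (hp : p.Prime)
    (hper : {x : P | ∃ j : ℕ, ¬ p ∣ j ∧ f^[j] x = x}.Finite) : ∃ x : P, f x = x := by
  have hQs : ∀ T : Finset P, IsChain (· ≤ ·) (T : Set P) → selQ s A be T ≤ s := by
    intro T hc
    unfold selQ
    split_ifs with h
    · exact (hbe _ (filter_spec s A hc h).2.1).1
    · exact le_rfl
  have hQa : ∀ T T' : Finset P, IsChain (· ≤ ·) (T : Set P) → T' ⊆ T →
      selQ s A be T ≤ selQ s A be T' := by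
    intro T T' hc hsub
    have hc' : IsChain (· ≤ ·) (T' : Set P) := hc.mono (Finset.coe_subset.2 hsub)
    by_cases h' : (T'.filter (fun x => x ∉ A)).Nonempty
    · have h : (T.filter (fun x => x ∉ A)).Nonempty :=
        h'.mono (Finset.filter_subset_filter _ hsub)
      obtain ⟨-, a2, a3⟩ := filter_spec s A hc h
      obtain ⟨b1, b2, -⟩ := filter_spec s A hc' h'
      unfold selQ
      rw [if_pos h, if_pos h']
      exact hbem _ _ a2 b2 (a3 _ (hsub b1) b2)
    · refine (hQs T hc).trans ?_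
      unfold selQ
      rw [if_neg h']
  have hex : ∀ T : Finset P, IsChain (· ≤ ·) (T : Set P) → T.Nonempty →
      ∃ z : P, IsLUB ({selQ s A be T, f (lst s T)} : Set P) z := by
    intro T hc hne
    obtain ⟨hm, hl⟩ := lst_spec s hc hne
    by_cases hxA : lst s T ∈ A
    · by_cases h : (T.filter (fun x => x ∉ A)).Nonempty
      · obtain ⟨a1, a2, a3⟩ := filter_spec s A hc h
        have e : selQ s A be T = be (lst s (T.filter (fun x => x ∉ A))) := by
          unfold selQ
          rw [if_pos h]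
        rw [e]
        rcases (hbe _ a2).1.lt_or_eq with h1 | h1
        · refine hj _ _ (lt_of_le_of_ne (hl _ a1) ?_) hxA a2 h1
          intro e2
          exact a2 (e2 ▸ hxA)
        · rw [h1]
          exact hA _ hxA
      · have e : selQ s A be T = s := by
          unfold selQ
          rw [if_neg h]
        rw [e]
        exact hA _ hxA
    · have h : (T.filter (fun x => x ∉ A)).Nonempty := ⟨_, Finset.mem_filter.2 ⟨hm, hxA⟩⟩
      obtain ⟨a1, a2, a3⟩ := filter_spec s A hc h
      have h1 : selQ s A be T ≤ f (lst s T) := by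
        unfold selQ
        rw [if_pos h]
        exact (hbem _ _ a2 hxA (a3 _ hm hxA)).trans (hbe _ hxA).2
      refine ⟨f (lst s T), ?_, ?_⟩
      · rintro z (rfl | rfl)
        · exact h1
        · exact le_rfl
      · intro z hz
        exact hz (Set.mem_insert_of_mem _ rfl)
  refine main_carr s f (fun T => jn (selQ s A be T) (f (lst s T))) (selQ s A be)
    ⟨?_, ?_, ?_, ?_, ?_⟩ hfin hf p hp hper
  · intro T T' hc hne hsub
    have hc' : IsChain (· ≤ ·) (T' : Set P) := hc.mono (Finset.coe_subset.2 hsub)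
    have e1 := hex T hc (hne.mono hsub)
    have e2 := hex T' hc' hne
    refine jn_le e1 ((hQa T T' hc hsub).trans (le_jn_left e2)) ?_
    refine (hf ?_).trans (le_jn_right e2)
    exact (lst_spec s hc (hne.mono hsub)).2 _ (hsub (lst_spec s hc' hne).1)
  · intro T T' hc _ hsub
    exact hQa T T' hc hsub
  · intro T hc hne
    exact le_jn_left (hex T hc hne)
  · intro T hc _
    exact hQs T hc
  · intro T hc hne
    exact le_jn_right (hex T hc hne)

/-- The order dual of `main_sel`. -/
theorem main_sel_dual (P : Type*) [PartialOrder P]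
    (hfin : ∃ n : ℕ, ∀ c : Finset P, IsChain (· ≤ ·) (c : Set P) → c.card ≤ n) (s : P)
    (f : P → P) (hf : Monotone f)
    (A : Set P) (hA : ∀ x ∈ A, ∃ z : P, IsGLB ({s, f x} : Set P) z)
    (be : P → P) (hbe : ∀ w, w ∉ A → s ≤ be w ∧ f w ≤ be w)
    (hbem : ∀ v w, v ∉ A → w ∉ A → v ≤ w → be v ≤ be w)
    (hj : ∀ x w : P, w < x → x ∈ A → w ∉ A → s < be w → ∃ z : P, IsGLB ({be w, f x} : Set P) z)
    (p : ℕ) (hp : p.Prime)
    (hper : {x : P | ∃ j : ℕ, ¬ p ∣ j ∧ f^[j] x = x}.Finite) : ∃ x : P, f x = x := by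
  obtain ⟨n, hn⟩ := hfin
  exact main_sel Pᵒᵈ ⟨n, fun c hc => hn c (by
    intro a ha b hb hab
    exact (hc ha hb hab).symm)⟩ (OrderDual.toDual s)
    (fun x => OrderDual.toDual (f (OrderDual.ofDual x))) (fun a b hab => hf hab)
    (OrderDual.ofDual ⁻¹' A) (fun x hx => hA (OrderDual.ofDual x) hx)
    (fun x => OrderDual.toDual (be (OrderDual.ofDual x)))
    (fun w hw => hbe (OrderDual.ofDual w) hw)
    (fun v w h1 h2 h3 => hbem (OrderDual.ofDual w) (OrderDual.ofDual v) h2 h1 h3)
    (fun x w h1 h2 h3 h4 => hj (OrderDual.ofDual x) (OrderDual.ofDual w) h1 h2 h3 h4)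
    p hp hper

end

end Pool.Agent.Helper73.PP
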